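import Mathlib
import Pool.Agent.Q91.ExpSys
import Pool.Agent.Q91.Pressure
import Pool.Agent.Q91.ParaMob

/-!
# Linear and Möbius systems on the disc: a counterexample to the dimension comparison

With `T = 2` and the sequence `2 + 10^{-8}, 10^7, 10^{14}, 10^{21}, ...` the linear system has
dimension at most `19/30` and the Möbius system has dimension at least `7/11`.
-/

open Set Filter Topology
open scoped ENNReal NNReal ComplexConjugate

namespace Pool.Agent.Results.MP_c785a0_an.DiscComparison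

/-- The closed unit disc. -/
def X : Set ℂ := Metric.closedBall 0 1

/-- `f_α(z) = (z + conj α) / (|α|^2 - 1)`. -/
noncomputable def f (α z : ℂ) : ℂ := (z + conj α) / ((‖α‖ : ℂ) ^ 2 - 1)

/-- `g_α(z) = 1 / (z + α)`. -/
noncomputable def g (α z : ℂ) : ℂ := 1 / (z + α)

/-- The set of sequences `𝒟`; `d n` stands for the term with index `n + 1` of the problem. -/
def InD (d : ℕ → ℝ) : Prop := 2 ≤ d 0 ∧ ∀ n, 2 ≤ d (n + 1) - d n

/-- The parameter `e(j/T) d_n`. -/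
noncomputable def par (d : ℕ → ℝ) (T : ℕ) (p : ℕ × Fin T) : ℂ :=
  Complex.exp (2 * Real.pi * Complex.I * ((p.2 : ℕ) / (T : ℂ))) * (d p.1 : ℂ)

/-- The family `𝓕(d, T)`. -/
noncomputable def famF (d : ℕ → ℝ) (T : ℕ) : ℕ × Fin T → ℂ → ℂ := fun p => f (par d T p)

/-- The family `𝓖(d, T)`. -/
noncomputable def famG (d : ℕ → ℝ) (T : ℕ) : ℕ × Fin T → ℂ → ℂ := fun p => g (par d T p)

/-- The composition `s_{i_1} ∘ ⋯ ∘ s_{i_N}` for the word `[i_1, ..., i_N]`. -/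
def word {I : Type} (s : I → ℂ → ℂ) : List I → ℂ → ℂ
  | [] => id
  | (i :: l) => s i ∘ word s l

/-- The limit set: the union over the infinite words `ω` of the intersections over `N ≥ 1` of the
sets `s_{ω_1} ∘ ⋯ ∘ s_{ω_N} (X)`. -/
def limitSet {I : Type} (s : I → ℂ → ℂ) : Set ℂ :=
  {x | ∃ ω : ℕ → I, ∀ N, 1 ≤ N → x ∈ word s (List.ofFn fun k : Fin N => ω k) '' X}

/-- Conformal iterated function systems on the closed disc `X`: a countable family of injective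
maps `X → X` which are contractions with a common constant, with the open set condition for
`Int X`, which extend to conformal (holomorphic, injective, with nonvanishing Hölder continuous
derivative) maps of one open connected `V ⊇ X` into `V`, with bounded distortion on `V`.  (The
maps are given as functions on `ℂ`, of which only the values on `V` matter; the cone condition
holds automatically for the disc.) -/
structure IsCIFS {I : Type} (s : I → ℂ → ℂ) : Prop where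
  countable : Countable I
  mapsTo : ∀ i, MapsTo (s i) X X
  injOn : ∀ i, InjOn (s i) X
  contraction : ∃ κ : ℝ, κ < 1 ∧ ∀ i, ∀ x ∈ X, ∀ y ∈ X, dist (s i x) (s i y) ≤ κ * dist x y
  open_set : ∀ i j, i ≠ j → Disjoint (s i '' interior X) (s j '' interior X)
  extension : ∃ V : Set ℂ, IsOpen V ∧ IsConnected V ∧ X ⊆ V ∧
    (∀ i, MapsTo (s i) V V ∧ InjOn (s i) V ∧ DifferentiableOn ℂ (s i) V ∧
      ∀ x ∈ V, deriv (s i) x ≠ 0) ∧
    (∃ ε : ℝ, 0 < ε ∧ ∀ i, ∃ C : ℝ, ∀ x ∈ V, ∀ y ∈ V,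
      ‖deriv (s i) x - deriv (s i) y‖ ≤ C * ‖x - y‖ ^ ε) ∧
    (∃ K : ℝ, 1 ≤ K ∧ ∀ l : List I, ∀ x ∈ V, ∀ y ∈ V,
      ‖deriv (word s l) y‖ ≤ K * ‖deriv (word s l) x‖)

/-- The partition function: the sum over the words of length `N` of the numbers
`sup_X |s_ω'|^t`. -/
noncomputable def partitionSum {I : Type} (s : I → ℂ → ℂ) (N : ℕ) (t : ℝ) : ℝ≥0∞ :=
  ∑' w : Fin N → I, ENNReal.ofReal ((⨆ x : X, ‖deriv (word s (List.ofFn w)) x‖) ^ t)

/-- Regular systems: the pressure has a zero, i.e. for some `t ≥ 0` the partition sums are finite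
and the limit of `(1/N) log` of them is `0`. -/
def IsRegular {I : Type} (s : I → ℂ → ℂ) : Prop :=
  ∃ t : ℝ, 0 ≤ t ∧ (∀ N, 1 ≤ N → partitionSum s N t ≠ ⊤) ∧
    Tendsto (fun N : ℕ => 1 / (N : ℝ) * Real.log (partitionSum s N t).toReal) atTop (𝓝 0)

/-- The sequence `2 + 10^{-8}, 10^7, 10^{14}, 10^{21}, ...`. -/
noncomputable def dd : ℕ → ℝ
  | 0 => 2 + 1 / 10 ^ 8
  | (n + 1) => (10 ^ 7) ^ (n + 1)

/-! ### Words -/

section Words

variable {I : Type} {s : I → ℂ → ℂ}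

lemma word_append (l l' : List I) : word s (l ++ l') = word s l ∘ word s l' := by
  induction l with
  | nil => rfl
  | cons i l ih =>
    change s i ∘ word s (l ++ l') = _
    rw [ih]
    rfl

lemma word_ofFn (ω : ℕ → I) (N : ℕ) :
    word s (List.ofFn fun k : Fin N => ω k) = Q91.ExpSys.cmp s ω N := by
  induction N generalizing ω with
  | zero => rfl
  | succ N ih =>
    rw [List.ofFn_succ]
    funext x
    rw [Q91.ExpSys.cmp_succ', ← ih fun k => ω (k + 1)]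
    rfl

lemma limitSet_eq (hX : ∀ i, MapsTo (s i) X X) :
    limitSet s = Q91.ExpSys.limitSet s X univ := by
  ext x
  constructor
  · rintro ⟨ω, h⟩
    refine ⟨ω, fun n => mem_univ _, fun n => ?_⟩
    rcases Nat.eq_zero_or_pos n with rfl | hn
    · have h1 := h 1 le_rfl
      rw [word_ofFn] at h1
      obtain ⟨y, hy, rfl⟩ := h1
      exact ⟨_, hX (ω 0) hy, rfl⟩
    · have h1 := h n hn
      rwa [word_ofFn] at h1
  · rintro ⟨ω, -, h⟩
    refine ⟨ω, fun N _ => ?_⟩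
    rw [word_ofFn]
    exact h N

variable {V : Set ℂ}

lemma word_mapsTo (hV : ∀ i, MapsTo (s i) V V) (l : List I) : MapsTo (word s l) V V := by
  induction l with
  | nil => exact fun x hx => hx
  | cons i l ih => exact (hV i).comp ih

lemma word_diff (hV : ∀ i, MapsTo (s i) V V) (hd : ∀ i, DifferentiableOn ℂ (s i) V)
    (l : List I) : DifferentiableOn ℂ (word s l) V := by
  induction l with
  | nil => exact differentiableOn_id
  | cons i l ih => exact (hd i).comp ih (word_mapsTo hV l)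

lemma deriv_cons (hVo : IsOpen V) (hV : ∀ i, MapsTo (s i) V V)
    (hd : ∀ i, DifferentiableOn ℂ (s i) V) (i : I) (l : List I) {x : ℂ} (hx : x ∈ V) :
    deriv (word s (i :: l)) x = deriv (s i) (word s l x) * deriv (word s l) x := by
  have h1 : DifferentiableAt ℂ (s i) (word s l x) :=
    (hd i).differentiableAt (hVo.mem_nhds (word_mapsTo hV l hx))
  have h2 : DifferentiableAt ℂ (word s l) x :=
    (word_diff hV hd l).differentiableAt (hVo.mem_nhds hx)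
  exact deriv_comp x h1 h2

lemma deriv_append (hVo : IsOpen V) (hV : ∀ i, MapsTo (s i) V V)
    (hd : ∀ i, DifferentiableOn ℂ (s i) V) (l l' : List I) {x : ℂ} (hx : x ∈ V) :
    deriv (word s (l ++ l')) x = deriv (word s l) (word s l' x) * deriv (word s l') x := by
  rw [word_append]
  have h1 : DifferentiableAt ℂ (word s l) (word s l' x) :=
    (word_diff hV hd l).differentiableAt (hVo.mem_nhds (word_mapsTo hV l' hx))
  have h2 : DifferentiableAt ℂ (word s l') x :=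
    (word_diff hV hd l').differentiableAt (hVo.mem_nhds hx)
  exact deriv_comp x h1 h2

lemma word_lip {κ : ℝ} (hκ0 : 0 ≤ κ) (hV : ∀ i, MapsTo (s i) V V)
    (hlip : ∀ i, ∀ x ∈ V, ∀ y ∈ V, ‖s i x - s i y‖ ≤ κ * ‖x - y‖) (l : List I) :
    ∀ x ∈ V, ∀ y ∈ V, ‖word s l x - word s l y‖ ≤ κ ^ l.length * ‖x - y‖ := by
  induction l with
  | nil => intro x _ y _; simp [word]
  | cons i l ih =>
    intro x hx y hy
    have h1 := hlip i _ (word_mapsTo hV l hx) _ (word_mapsTo hV l hy)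
    have h2 := mul_le_mul_of_nonneg_left (ih x hx y hy) hκ0
    calc ‖word s (i :: l) x - word s (i :: l) y‖ ≤ κ * ‖word s l x - word s l y‖ := h1
      _ ≤ κ * (κ ^ l.length * ‖x - y‖) := h2
      _ = κ ^ (i :: l).length * ‖x - y‖ := by rw [List.length_cons]; ring

lemma word_ratio {κ : ℝ} (hκ0 : 0 ≤ κ) (hVo : IsOpen V) (hV : ∀ i, MapsTo (s i) V V)
    (hd : ∀ i, DifferentiableOn ℂ (s i) V)
    (hlip : ∀ i, ∀ x ∈ V, ∀ y ∈ V, ‖s i x - s i y‖ ≤ κ * ‖x - y‖)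
    (hrat : ∀ i, ∀ x ∈ V, ∀ y ∈ V, ‖deriv (s i) x‖ ≤ Real.exp (2 * ‖x - y‖) * ‖deriv (s i) y‖)
    (l : List I) : ∀ x ∈ V, ∀ y ∈ V, ‖deriv (word s l) x‖ ≤
      Real.exp (2 * (∑ k ∈ Finset.range l.length, κ ^ k) * ‖x - y‖) * ‖deriv (word s l) y‖ := by
  induction l with
  | nil => intro x _ y _; simp [word]
  | cons i l ih =>
    intro x hx y hy
    rw [deriv_cons hVo hV hd i l hx, deriv_cons hVo hV hd i l hy, norm_mul, norm_mul,
      List.length_cons, Finset.sum_range_succ]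
    have h1 := hrat i _ (word_mapsTo hV l hx) _ (word_mapsTo hV l hy)
    have h2 := ih x hx y hy
    have h3 := word_lip hκ0 hV hlip l x hx y hy
    have h4 : Real.exp (2 * ‖word s l x - word s l y‖) ≤
        Real.exp (2 * (κ ^ l.length * ‖x - y‖)) := Real.exp_le_exp.2 (by linarith)
    calc ‖deriv (s i) (word s l x)‖ * ‖deriv (word s l) x‖
        ≤ (Real.exp (2 * (κ ^ l.length * ‖x - y‖)) * ‖deriv (s i) (word s l y)‖) *
          (Real.exp (2 * (∑ k ∈ Finset.range l.length, κ ^ k) * ‖x - y‖)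
            * ‖deriv (word s l) y‖) :=
          mul_le_mul (h1.trans (mul_le_mul_of_nonneg_right h4 (norm_nonneg _))) h2
            (norm_nonneg _) (by positivity)
      _ = (Real.exp (2 * (κ ^ l.length * ‖x - y‖)) *
            Real.exp (2 * (∑ k ∈ Finset.range l.length, κ ^ k) * ‖x - y‖)) *
          (‖deriv (s i) (word s l y)‖ * ‖deriv (word s l) y‖) := by ring
      _ = _ := by
        rw [← Real.exp_add]
        congr 2
        ring

lemma geom_le {κ : ℝ} (hκ0 : 0 ≤ κ) (hκ1 : κ < 1) (n : ℕ) :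
    ∑ k ∈ Finset.range n, κ ^ k ≤ (1 - κ)⁻¹ := by
  rw [← tsum_geometric_of_lt_one hκ0 hκ1]
  exact (summable_geometric_of_lt_one hκ0 hκ1).sum_le_tsum _ fun i _ => pow_nonneg hκ0 i

lemma word_dist {κ R : ℝ} (hκ0 : 0 ≤ κ) (hκ1 : κ < 1)
    (hV : ∀ i, MapsTo (s i) (Metric.ball 0 R) (Metric.ball 0 R))
    (hd : ∀ i, DifferentiableOn ℂ (s i) (Metric.ball 0 R))
    (hlip : ∀ i, ∀ x ∈ Metric.ball (0 : ℂ) R, ∀ y ∈ Metric.ball (0 : ℂ) R,
      ‖s i x - s i y‖ ≤ κ * ‖x - y‖)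
    (hrat : ∀ i, ∀ x ∈ Metric.ball (0 : ℂ) R, ∀ y ∈ Metric.ball (0 : ℂ) R,
      ‖deriv (s i) x‖ ≤ Real.exp (2 * ‖x - y‖) * ‖deriv (s i) y‖)
    (l : List I) : ∀ x ∈ Metric.ball (0 : ℂ) R, ∀ y ∈ Metric.ball (0 : ℂ) R,
      ‖deriv (word s l) x‖ ≤ Real.exp (4 * R * (1 - κ)⁻¹) * ‖deriv (word s l) y‖ := by
  intro x hx y hy
  refine (word_ratio hκ0 Metric.isOpen_ball hV hd hlip hrat l x hx y hy).trans ?_
  apply mul_le_mul_of_nonneg_right _ (norm_nonneg _)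
  apply Real.exp_le_exp.2
  have h1 := geom_le hκ0 hκ1 l.length
  have h0 : 0 ≤ ∑ k ∈ Finset.range l.length, κ ^ k :=
    Finset.sum_nonneg fun k _ => pow_nonneg hκ0 k
  have h2 : ‖x - y‖ ≤ 2 * R := by
    rw [mem_ball_zero_iff] at hx hy
    have := norm_sub_le x y
    linarith
  calc 2 * (∑ k ∈ Finset.range l.length, κ ^ k) * ‖x - y‖
      ≤ 2 * (1 - κ)⁻¹ * (2 * R) := by
        apply mul_le_mul (by linarith) h2 (norm_nonneg _)
        have : 0 < (1 - κ)⁻¹ := inv_pos.2 (by linarith)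
        positivity
    _ = 4 * R * (1 - κ)⁻¹ := by ring

/-- A criterion. -/
lemma isCIFS_of [Countable I] {κ R : ℝ} (hR : 1 < R) (hκ0 : 0 ≤ κ) (hκ1 : κ < 1)
    (hX : ∀ i, MapsTo (s i) X X)
    (hV : ∀ i, MapsTo (s i) (Metric.ball 0 R) (Metric.ball 0 R))
    (hinj : ∀ i, InjOn (s i) (Metric.ball 0 R))
    (hd : ∀ i, DifferentiableOn ℂ (s i) (Metric.ball 0 R))
    (hne : ∀ i, ∀ x ∈ Metric.ball (0 : ℂ) R, deriv (s i) x ≠ 0)
    (hlip : ∀ i, ∀ x ∈ Metric.ball (0 : ℂ) R, ∀ y ∈ Metric.ball (0 : ℂ) R,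
      ‖s i x - s i y‖ ≤ κ * ‖x - y‖)
    (hrat : ∀ i, ∀ x ∈ Metric.ball (0 : ℂ) R, ∀ y ∈ Metric.ball (0 : ℂ) R,
      ‖deriv (s i) x‖ ≤ Real.exp (2 * ‖x - y‖) * ‖deriv (s i) y‖)
    (hhol : ∀ i, ∀ x ∈ Metric.ball (0 : ℂ) R, ∀ y ∈ Metric.ball (0 : ℂ) R,
      ‖deriv (s i) x - deriv (s i) y‖ ≤ 2 * ‖x - y‖)
    (hosc : ∀ i j, i ≠ j → Disjoint (s i '' interior X) (s j '' interior X)) : IsCIFS s := by
  have hXV : X ⊆ Metric.ball (0 : ℂ) R := Metric.closedBall_subset_ball hR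
  refine ⟨inferInstance, hX, fun i => (hinj i).mono hXV, ⟨κ, hκ1, fun i x hx y hy => ?_⟩, hosc,
    ⟨Metric.ball 0 R, Metric.isOpen_ball, ?_, hXV, fun i => ⟨hV i, hinj i, hd i, hne i⟩,
      ⟨1, one_pos, fun i => ⟨2, fun x hx y hy => ?_⟩⟩,
      ⟨Real.exp (4 * R * (1 - κ)⁻¹), ?_, fun l x hx y hy =>
        word_dist hκ0 hκ1 hV hd hlip hrat l y hy x hx⟩⟩⟩
  · rw [dist_eq_norm, dist_eq_norm]
    exact hlip i x (hXV hx) y (hXV hy)
  · exact ⟨⟨0, Metric.mem_ball_self (by linarith)⟩, (convex_ball _ _).isPreconnected⟩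
  · rw [Real.rpow_one]
    exact hhol i x hx y hy
  · apply Real.one_le_exp
    have : 0 < (1 - κ)⁻¹ := inv_pos.2 (by linarith)
    have h0 : 0 < R := by linarith
    positivity

/-- A criterion for regularity. -/
lemma isRegular_of {κ R : ℝ} (hR : 1 < R) (hκ0 : 0 ≤ κ) (hκ1 : κ < 1)
    (hX : ∀ i, MapsTo (s i) X X)
    (hV : ∀ i, MapsTo (s i) (Metric.ball 0 R) (Metric.ball 0 R))
    (hd : ∀ i, DifferentiableOn ℂ (s i) (Metric.ball 0 R))
    (hne : ∀ i, ∀ x ∈ Metric.ball (0 : ℂ) R, deriv (s i) x ≠ 0)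
    (hlip : ∀ i, ∀ x ∈ Metric.ball (0 : ℂ) R, ∀ y ∈ Metric.ball (0 : ℂ) R,
      ‖s i x - s i y‖ ≤ κ * ‖x - y‖)
    (hrat : ∀ i, ∀ x ∈ Metric.ball (0 : ℂ) R, ∀ y ∈ Metric.ball (0 : ℂ) R,
      ‖deriv (s i) x‖ ≤ Real.exp (2 * ‖x - y‖) * ‖deriv (s i) y‖)
    {b : I → ℝ} (hb0 : ∀ i, 0 ≤ b i) (hb : ∀ i, ∀ x ∈ X, ‖deriv (s i) x‖ ≤ b i)
    (hb1 : ∀ i, b i ≤ 1)
    (hfin : ∀ t : ℝ, 0 < t → ∑' i, ENNReal.ofReal (b i ^ t) ≠ ⊤)
    {i j : I} (hij : i ≠ j) {t₁ : ℝ} (ht₁ : 0 < t₁)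
    (hsmall : ∑' i, ENNReal.ofReal (b i ^ t₁) < 1) : IsRegular s := by
  have hXV : X ⊆ Metric.ball (0 : ℂ) R := Metric.closedBall_subset_ball hR
  have h0X : (0 : ℂ) ∈ X := Metric.mem_closedBall_self zero_le_one
  have hVo : IsOpen (Metric.ball (0 : ℂ) R) := Metric.isOpen_ball
  obtain ⟨σ, hσ⟩ : ∃ σ : List I → ℝ, σ = fun l => ⨆ x : X, ‖deriv (word s l) x‖ := ⟨_, rfl⟩
  -- derivatives are at most one
  have hle1 : ∀ l : List I, ∀ x ∈ X, ‖deriv (word s l) x‖ ≤ 1 := by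
    intro l
    induction l with
    | nil => intro x _; simp [word]
    | cons i l ih =>
      intro x hx
      rw [deriv_cons hVo hV hd i l (hXV hx), norm_mul]
      exact mul_le_one₀ ((hb i _ (word_mapsTo hX l hx)).trans (hb1 i)) (norm_nonneg _) (ih x hx)
  have hne' : ∀ l : List I, ∀ x ∈ Metric.ball (0 : ℂ) R, deriv (word s l) x ≠ 0 := by
    intro l
    induction l with
    | nil => intro x _; simp [word]
    | cons i l ih =>
      intro x hx
      rw [deriv_cons hVo hV hd i l hx]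
      exact mul_ne_zero (hne i _ (word_mapsTo hV l hx)) (ih x hx)
  have hbdd : ∀ l : List I, BddAbove (range fun x : X => ‖deriv (word s l) x‖) := by
    intro l
    refine ⟨1, ?_⟩
    rintro _ ⟨x, rfl⟩
    exact hle1 l x x.2
  have hle : ∀ l : List I, ∀ x ∈ X, ‖deriv (word s l) x‖ ≤ σ l := by
    intro l x hx
    rw [hσ]
    exact le_ciSup (hbdd l) ⟨x, hx⟩
  have : Nonempty X := ⟨⟨0, h0X⟩⟩
  have hsup : ∀ l : List I, ∀ c : ℝ, (∀ x ∈ X, ‖deriv (word s l) x‖ ≤ c) → σ l ≤ c := by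
    intro l c h
    rw [hσ]
    exact ciSup_le fun x => h x x.2
  obtain ⟨K, hK⟩ : ∃ K : ℝ, K = Real.exp (4 * R * (1 - κ)⁻¹) := ⟨_, rfl⟩
  have hdist : ∀ l : List I, ∀ x ∈ X, ∀ y ∈ X,
      ‖deriv (word s l) x‖ ≤ K * ‖deriv (word s l) y‖ := by
    intro l x hx y hy
    rw [hK]
    exact word_dist hκ0 hκ1 hV hd hlip hrat l x (hXV hx) y (hXV hy)
  have hK1 : 1 ≤ K := by
    rw [hK]
    apply Real.one_le_exp
    have : 0 < (1 - κ)⁻¹ := inv_pos.2 (by linarith)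
    have h0 : 0 < R := by linarith
    positivity
  have hσpos : ∀ l, 0 < σ l := fun l =>
    (norm_pos_iff.2 (hne' l 0 (hXV h0X))).trans_le (hle l 0 h0X)
  have hM : Q91.Pressure.Mult σ K := by
    refine ⟨hK1, hσpos, fun l => hsup l 1 (hle1 l), fun l l' => ?_, fun l l' => ?_⟩
    · refine hsup _ _ fun x hx => ?_
      rw [deriv_append hVo hV hd l l' (hXV hx), norm_mul]
      exact mul_le_mul (hle l _ (word_mapsTo hX l' hx)) (hle l' x hx) (norm_nonneg _)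
        (hσpos l).le
    · rw [← le_div_iff₀' (hσpos l)]
      refine hsup _ _ fun x hx => ?_
      rw [le_div_iff₀' (hσpos l)]
      have h1 : σ l ≤ K * ‖deriv (word s l) (word s l' x)‖ :=
        hsup _ _ fun y hy => hdist l y hy _ (word_mapsTo hX l' hx)
      have h2 := hle (l ++ l') x hx
      rw [deriv_append hVo hV hd l l' (hXV hx), norm_mul] at h2
      calc σ l * ‖deriv (word s l') x‖
          ≤ (K * ‖deriv (word s l) (word s l' x)‖) * ‖deriv (word s l') x‖ :=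
            mul_le_mul_of_nonneg_right h1 (norm_nonneg _)
        _ = K * (‖deriv (word s l) (word s l' x)‖ * ‖deriv (word s l') x‖) := by ring
        _ ≤ K * σ (l ++ l') := mul_le_mul_of_nonneg_left h2 (by linarith)
  have hZ : ∀ N t, partitionSum s N t = Q91.Pressure.Z σ N t := by
    intro N t
    rw [hσ]
    rfl
  have hσb : ∀ i, σ [i] ≤ b i := fun i => hsup _ _ fun x hx => by
    rw [deriv_cons hVo hV hd i [] (hXV hx), norm_mul]
    have h1 := hb i _ (word_mapsTo hX [] hx)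
    have h2 := hle1 [] x hx
    calc ‖deriv (s i) (word s [] x)‖ * ‖deriv (word s []) x‖ ≤ b i * 1 :=
          mul_le_mul h1 h2 (norm_nonneg _) (hb0 i)
      _ = b i := mul_one _
  have hZ1 : ∀ t : ℝ, 0 < t → Q91.Pressure.Z σ 1 t ≤ ∑' i, ENNReal.ofReal (b i ^ t) := by
    intro t ht
    unfold Q91.Pressure.Z
    rw [← (Equiv.funUnique (Fin 1) I).symm.tsum_eq]
    refine ENNReal.tsum_le_tsum fun i => ENNReal.ofReal_le_ofReal ?_
    refine Real.rpow_le_rpow (hσpos _).le ?_ ht.le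
    exact hσb i
  obtain ⟨t, ht, h⟩ := Q91.Pressure.exists_regular hM
    (fun t ht => ((hZ1 t ht).trans_lt (lt_top_iff_ne_top.2 (hfin t ht))).ne) hij ht₁
    ((hZ1 t₁ ht₁).trans_lt hsmall)
  refine ⟨t, ht.le, fun N hN => ?_, ?_⟩
  · rw [hZ]
    exact ((h N hN).2.trans_lt ENNReal.ofReal_lt_top).ne
  · have hlim : Tendsto (fun N : ℕ => 1 / (N : ℝ) * Real.log (K ^ t)) atTop (𝓝 0) := by
      have h1 : Tendsto (fun N : ℕ => 1 / (N : ℝ)) atTop (𝓝 0) := tendsto_one_div_atTop_nhds_zero_nat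
      have h2 := h1.mul_const (Real.log (K ^ t))
      rwa [zero_mul] at h2
    refine tendsto_of_tendsto_of_tendsto_of_le_of_le' tendsto_const_nhds hlim ?_ ?_
    · filter_upwards [eventually_ge_atTop 1] with N hN
      obtain ⟨h1, h2⟩ := h N hN
      apply mul_nonneg (by positivity)
      apply Real.log_nonneg
      rw [hZ]
      have h3 : Q91.Pressure.Z σ N t ≠ ⊤ := (h2.trans_lt ENNReal.ofReal_lt_top).ne
      have := ENNReal.toReal_mono h3 h1
      simpa using this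
    · filter_upwards [eventually_ge_atTop 1] with N hN
      obtain ⟨h1, h2⟩ := h N hN
      have h3 : Q91.Pressure.Z σ N t ≠ ⊤ := (h2.trans_lt ENNReal.ofReal_lt_top).ne
      apply mul_le_mul_of_nonneg_left _ (by positivity)
      rw [hZ]
      have h4 : 1 ≤ (Q91.Pressure.Z σ N t).toReal := by
        have := ENNReal.toReal_mono h3 h1
        simpa using this
      apply Real.log_le_log (by linarith)
      have h5 : 0 ≤ K ^ t := Real.rpow_nonneg (by linarith) _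
      have := ENNReal.toReal_mono ENNReal.ofReal_ne_top h2
      rwa [ENNReal.toReal_ofReal h5] at this

end Words

/-! ### The parameters -/

/-- The signs. -/
def sg (j : Fin 2) : ℝ := if j = 0 then 1 else -1

lemma sg_sq (j : Fin 2) : sg j * sg j = 1 := by
  unfold sg
  split_ifs <;> norm_num

lemma sg_cases (j : Fin 2) : sg j = 1 ∨ sg j = -1 := by
  unfold sg
  split_ifs <;> simp

lemma abs_sg (j : Fin 2) : |sg j| = 1 := by
  rcases sg_cases j with h | h <;> rw [h] <;> norm_num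

lemma par_two (d : ℕ → ℝ) (p : ℕ × Fin 2) : par d 2 p = ((sg p.2 * d p.1 : ℝ) : ℂ) := by
  obtain ⟨n, j⟩ := p
  unfold par sg
  fin_cases j
  · simp
  · have : (2 * (Real.pi : ℂ) * Complex.I * (((1 : ℕ) : ℂ) / ((2 : ℕ) : ℂ))) =
        Real.pi * Complex.I := by push_cast; ring
    simp only [Fin.mk_one, Fin.isValue, one_ne_zero, ↓reduceIte]
    rw [this, Complex.exp_pi_mul_I]
    push_cast
    ring

lemma dd_zero : dd 0 = 2 + 1 / 10 ^ 8 := rfl
lemma dd_succ (n : ℕ) : dd (n + 1) = (10 ^ 7) ^ (n + 1) := rfl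

lemma dd_step (n : ℕ) : dd n + 2 ≤ dd (n + 1) := by
  cases n with
  | zero => rw [dd_zero, dd_succ]; norm_num
  | succ n =>
    rw [dd_succ, dd_succ, pow_succ ((10 : ℝ) ^ 7) (n + 1)]
    have : (1 : ℝ) ≤ (10 ^ 7) ^ (n + 1) := one_le_pow₀ (by norm_num)
    linarith

lemma dd_lt {n m : ℕ} (h : n < m) : dd n + 2 ≤ dd m := by
  induction m, h using Nat.le_induction with
  | base => exact dd_step n
  | succ m _ ih => linarith [dd_step m]

lemma dd_ge (n : ℕ) : 2 + 1 / 10 ^ 8 ≤ dd n := by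
  rcases Nat.eq_zero_or_pos n with rfl | h
  · exact dd_zero.ge
  · have := dd_lt h
    rw [dd_zero] at this
    linarith

lemma dd_ge_two (n : ℕ) : 2 ≤ dd n := by
  have := dd_ge n
  norm_num at this
  linarith

lemma inD_dd : InD dd := ⟨dd_ge_two 0, fun n => by linarith [dd_step n]⟩

lemma abs_par (p : ℕ × Fin 2) : |sg p.2 * dd p.1| = dd p.1 := by
  rw [abs_mul, abs_sg, one_mul, abs_of_nonneg (by linarith [dd_ge_two p.1])]

lemma interior_X : interior X = Metric.ball (0 : ℂ) 1 := interior_closedBall _ one_ne_zero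

lemma osc_of {s : ℕ × Fin 2 → ℂ → ℂ} (h : ∀ p, ∀ z ∈ Metric.ball (0 : ℂ) 1,
    sg p.2 * (s p z).re ∈ Ioo (1 / (dd p.1 + 1)) (1 / (dd p.1 - 1))) :
    ∀ p q, p ≠ q → Disjoint (s p '' interior X) (s q '' interior X) := by
  intro p q hpq
  rw [interior_X, Set.disjoint_left]
  rintro w ⟨x, hx, hxw⟩ ⟨y, hy, hyw⟩
  have h1 := h p x hx
  have h2 := h q y hy
  rw [hxw] at h1
  rw [hyw] at h2
  have hp := dd_ge_two p.1
  have hq := dd_ge_two q.1
  have p1 : 0 < sg p.2 * w.re := lt_trans (by positivity) h1.1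
  have p2 : 0 < sg q.2 * w.re := lt_trans (by positivity) h2.1
  have hs : sg p.2 = sg q.2 := by
    rcases sg_cases p.2 with h3 | h3 <;> rcases sg_cases q.2 with h4 | h4 <;>
      rw [h3] at p1 <;> rw [h4] at p2 <;> rw [h3, h4] <;> linarith
  have hj : p.2 = q.2 := by
    unfold sg at hs
    by_cases h3 : p.2 = 0 <;> by_cases h4 : q.2 = 0
    · rw [h3, h4]
    · rw [if_pos h3, if_neg h4] at hs; norm_num at hs
    · rw [if_neg h3, if_pos h4] at hs; norm_num at hs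
    · omega
  rw [hs] at h1
  have hn : p.1 ≠ q.1 := fun h3 => hpq (Prod.ext h3 hj)
  rcases lt_or_gt_of_ne hn with h3 | h3
  · have h4 := dd_lt h3
    have h5 : 1 / (dd q.1 - 1) ≤ 1 / (dd p.1 + 1) :=
      one_div_le_one_div_of_le (by linarith) (by linarith)
    linarith [h1.1, h2.2]
  · have h4 := dd_lt h3
    have h5 : 1 / (dd p.1 - 1) ≤ 1 / (dd q.1 + 1) :=
      one_div_le_one_div_of_le (by linarith) (by linarith)
    linarith [h2.1, h1.2]

/-! ### The linear maps -/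

section Linear

lemma f_real (a : ℝ) (z : ℂ) : f (a : ℂ) z = (z + a) / ((a ^ 2 - 1 : ℝ) : ℂ) := by
  unfold f
  rw [Complex.conj_ofReal, Complex.norm_real, Real.norm_eq_abs]
  congr 1
  rw [← Complex.ofReal_pow, sq_abs]
  push_cast
  ring

variable {a : ℝ} (ha : 2 ≤ |a|)

include ha in
lemma c_ge : 3 ≤ a ^ 2 - 1 := by
  have : 2 ^ 2 ≤ |a| ^ 2 := pow_le_pow_left₀ (by norm_num) ha 2
  rw [sq_abs] at this
  linarith

include ha in
lemma norm_f (z : ℂ) : ‖f (a : ℂ) z‖ = ‖z + a‖ / (a ^ 2 - 1) := by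
  have := c_ge ha
  rw [f_real, norm_div, Complex.norm_real, Real.norm_of_nonneg (by linarith)]

include ha in
lemma f_sub (x y : ℂ) : ‖f (a : ℂ) x - f (a : ℂ) y‖ = (a ^ 2 - 1)⁻¹ * ‖x - y‖ := by
  have := c_ge ha
  rw [f_real, f_real, ← sub_div, norm_div, Complex.norm_real, Real.norm_of_nonneg (by linarith)]
  rw [show x + a - (y + a) = x - y by ring, div_eq_inv_mul]

include ha in
lemma f_mapsX : MapsTo (f (a : ℂ)) X X := by
  intro z hz
  have hz' : ‖z‖ ≤ 1 := mem_closedBall_zero_iff.1 hz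
  refine mem_closedBall_zero_iff.2 ?_
  have h1 := c_ge ha
  rw [norm_f ha, div_le_one (by linarith)]
  have h2 := norm_add_le z (a : ℂ)
  rw [Complex.norm_real, Real.norm_eq_abs] at h2
  have h3 : a ^ 2 = |a| ^ 2 := (sq_abs a).symm
  rw [h3]
  nlinarith

include ha in
lemma f_mapsV : MapsTo (f (a : ℂ)) (Metric.ball 0 2) (Metric.ball 0 2) := by
  intro z hz
  have hz' : ‖z‖ < 2 := mem_ball_zero_iff.1 hz
  refine mem_ball_zero_iff.2 ?_
  have h1 := c_ge ha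
  rw [norm_f ha, div_lt_iff₀ (by linarith)]
  have h2 := norm_add_le z (a : ℂ)
  rw [Complex.norm_real, Real.norm_eq_abs] at h2
  have h3 : a ^ 2 = |a| ^ 2 := (sq_abs a).symm
  rw [h3]
  nlinarith

lemma f_deriv (z : ℂ) : HasDerivAt (f (a : ℂ)) (1 / ((a ^ 2 - 1 : ℝ) : ℂ)) z := by
  have h1 : f (a : ℂ) = fun z => (z + a) / ((a ^ 2 - 1 : ℝ) : ℂ) := funext fun z => f_real a z
  rw [h1]
  exact ((hasDerivAt_id z).add_const (a : ℂ)).div_const _

lemma f_re {ε d : ℝ} (hε : ε * ε = 1) (hd : 2 ≤ d) {z : ℂ} (hz : z ∈ Metric.ball (0 : ℂ) 1) :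
    ε * (f ((ε * d : ℝ) : ℂ) z).re ∈ Ioo (1 / (d + 1)) (1 / (d - 1)) := by
  have hz' : ‖z‖ < 1 := mem_ball_zero_iff.1 hz
  have hε1 : |ε| = 1 := by
    have : |ε| * |ε| = 1 := by rw [← abs_mul, hε, abs_one]
    nlinarith [abs_nonneg ε]
  have hp : |ε * z.re| < 1 := by
    rw [abs_mul, hε1, one_mul]
    exact (Complex.abs_re_le_norm z).trans_lt hz'
  obtain ⟨hp1, hp2⟩ := abs_lt.1 hp
  have e2 : (ε * d) ^ 2 - 1 = d ^ 2 - 1 := by
    rw [mul_pow, sq ε, hε, one_mul]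
  have e : ε * (f ((ε * d : ℝ) : ℂ) z).re = (ε * z.re + d) / (d ^ 2 - 1) := by
    rw [f_real, Complex.div_ofReal_re, Complex.add_re, Complex.ofReal_re, e2, ← mul_div_assoc]
    congr 1
    linear_combination d * hε
  rw [e, show d ^ 2 - 1 = (d - 1) * (d + 1) by ring]
  have h1 : 0 < d - 1 := by linarith
  have h2 : 0 < d + 1 := by linarith
  constructor
  · rw [div_lt_div_iff₀ h2 (by positivity)]
    nlinarith [mul_pos h2 h1]
  · rw [div_lt_div_iff₀ (by positivity) h1]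
    nlinarith [mul_pos h2 h1]

end Linear

/-! ### The Möbius maps -/

section Moebius

variable {a : ℝ} (ha : 2 + 1 / 10 ^ 8 ≤ |a|)

include ha in
lemma den_ge {z : ℂ} (hz : z ∈ Metric.ball (0 : ℂ) (1 + 1 / (4 * 10 ^ 8))) :
    1 + 1 / (2 * 10 ^ 8) ≤ ‖z + a‖ := by
  have hz' : ‖z‖ < 1 + 1 / (4 * 10 ^ 8) := mem_ball_zero_iff.1 hz
  have h2 : ‖(a : ℂ)‖ ≤ ‖z + a‖ + ‖z‖ := by
    have := norm_sub_le (z + a) z
    rwa [add_sub_cancel_left] at this
  rw [Complex.norm_real, Real.norm_eq_abs] at h2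
  norm_num at ha hz' ⊢
  linarith

include ha in
lemma den_ne {z : ℂ} (hz : z ∈ Metric.ball (0 : ℂ) (1 + 1 / (4 * 10 ^ 8))) : z + a ≠ 0 := by
  have h := den_ge ha hz
  intro h0
  rw [h0, norm_zero] at h
  norm_num at h

include ha in
lemma g_deriv {z : ℂ} (hz : z ∈ Metric.ball (0 : ℂ) (1 + 1 / (4 * 10 ^ 8))) :
    HasDerivAt (g (a : ℂ)) (-1 / (z + a) ^ 2) z := by
  have h1 : g (a : ℂ) = fun z : ℂ => (z + a)⁻¹ := funext fun z => one_div _
  rw [h1]
  exact ((hasDerivAt_id z).add_const (a : ℂ)).inv (den_ne ha hz)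

include ha in
lemma norm_deriv_g {z : ℂ} (hz : z ∈ Metric.ball (0 : ℂ) (1 + 1 / (4 * 10 ^ 8))) :
    ‖deriv (g (a : ℂ)) z‖ = (‖z + a‖ ^ 2)⁻¹ := by
  rw [(g_deriv ha hz).deriv, norm_div, norm_neg, norm_one, norm_pow, one_div]

include ha in
lemma g_sub {x y : ℂ} (hx : x ∈ Metric.ball (0 : ℂ) (1 + 1 / (4 * 10 ^ 8)))
    (hy : y ∈ Metric.ball (0 : ℂ) (1 + 1 / (4 * 10 ^ 8))) :
    g (a : ℂ) x - g (a : ℂ) y = (y - x) / ((x + a) * (y + a)) := by
  unfold g
  rw [div_sub_div _ _ (den_ne ha hx) (den_ne ha hy)]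
  congr 1
  ring

/-- The contraction constant. -/
noncomputable def kap : ℝ := ((1 + 1 / (2 * 10 ^ 8)) ^ 2)⁻¹

lemma kap_pos : 0 < kap := by unfold kap; positivity

lemma kap_lt : kap < 1 := by
  unfold kap
  apply inv_lt_one_of_one_lt₀
  norm_num

include ha in
lemma g_lip {x y : ℂ} (hx : x ∈ Metric.ball (0 : ℂ) (1 + 1 / (4 * 10 ^ 8)))
    (hy : y ∈ Metric.ball (0 : ℂ) (1 + 1 / (4 * 10 ^ 8))) :
    ‖g (a : ℂ) x - g (a : ℂ) y‖ ≤ kap * ‖x - y‖ := by
  rw [g_sub ha hx hy, norm_div, norm_mul, norm_sub_rev y x, div_eq_inv_mul]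
  apply mul_le_mul_of_nonneg_right _ (norm_nonneg _)
  unfold kap
  apply inv_anti₀ (by positivity)
  rw [sq]
  exact mul_le_mul (den_ge ha hx) (den_ge ha hy) (by positivity) (norm_nonneg _)

include ha in
lemma g_rat {x y : ℂ} (hx : x ∈ Metric.ball (0 : ℂ) (1 + 1 / (4 * 10 ^ 8)))
    (hy : y ∈ Metric.ball (0 : ℂ) (1 + 1 / (4 * 10 ^ 8))) :
    ‖deriv (g (a : ℂ)) x‖ ≤ Real.exp (2 * ‖x - y‖) * ‖deriv (g (a : ℂ)) y‖ := by
  rw [norm_deriv_g ha hx, norm_deriv_g ha hy]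
  have h1 : 1 ≤ ‖x + a‖ := le_trans (by norm_num) (den_ge ha hx)
  have h2 : 0 < ‖y + a‖ := norm_pos_iff.2 (den_ne ha hy)
  have h3 : ‖y + a‖ ≤ ‖x + a‖ + ‖x - y‖ := by
    have := norm_sub_le (x + a) (x - y)
    rwa [show x + a - (x - y) = y + a by ring] at this
  have h4 : 1 + ‖x - y‖ ≤ Real.exp ‖x - y‖ := by
    rw [add_comm]
    exact Real.add_one_le_exp _
  have h5 : ‖y + a‖ ≤ Real.exp ‖x - y‖ * ‖x + a‖ := by
    have h6 : ‖x + a‖ + ‖x - y‖ ≤ (1 + ‖x - y‖) * ‖x + a‖ := by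
      nlinarith [norm_nonneg (x - y)]
    exact h3.trans (h6.trans (mul_le_mul_of_nonneg_right h4 (norm_nonneg _)))
  have h6 : ‖y + a‖ ^ 2 ≤ Real.exp (2 * ‖x - y‖) * ‖x + a‖ ^ 2 := by
    have := pow_le_pow_left₀ h2.le h5 2
    rwa [mul_pow, ← Real.exp_nat_mul, Nat.cast_ofNat] at this
  rw [inv_eq_one_div, div_le_iff₀ (by positivity), mul_assoc, ← div_eq_inv_mul,
    ← mul_div_assoc, one_le_div (by positivity)]
  exact h6

include ha in
lemma g_hol {x y : ℂ} (hx : x ∈ Metric.ball (0 : ℂ) (1 + 1 / (4 * 10 ^ 8)))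
    (hy : y ∈ Metric.ball (0 : ℂ) (1 + 1 / (4 * 10 ^ 8))) :
    ‖deriv (g (a : ℂ)) x - deriv (g (a : ℂ)) y‖ ≤ 2 * ‖x - y‖ := by
  rw [(g_deriv ha hx).deriv, (g_deriv ha hy).deriv]
  have hx0 := den_ne ha hx
  have hy0 := den_ne ha hy
  have e : -1 / (x + a) ^ 2 - -1 / (y + a) ^ 2 =
      (g (a : ℂ) y - g (a : ℂ) x) * ((x + a)⁻¹ + (y + a)⁻¹) := by
    unfold g
    field_simp
    ring
  rw [e, norm_mul, norm_sub_rev]
  have h1 := g_lip ha hx hy
  have h2 : ‖(x + a)⁻¹‖ ≤ 1 := by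
    rw [norm_inv]
    exact inv_le_one_of_one_le₀ (le_trans (by norm_num) (den_ge ha hx))
  have h3 : ‖(y + a)⁻¹‖ ≤ 1 := by
    rw [norm_inv]
    exact inv_le_one_of_one_le₀ (le_trans (by norm_num) (den_ge ha hy))
  have h4 : ‖(x + a)⁻¹ + (y + a)⁻¹‖ ≤ 2 := (norm_add_le _ _).trans (by linarith)
  have h5 : ‖g (a : ℂ) x - g (a : ℂ) y‖ ≤ ‖x - y‖ :=
    h1.trans (mul_le_of_le_one_left (norm_nonneg _) kap_lt.le)
  calc _ ≤ ‖x - y‖ * 2 := mul_le_mul h5 h4 (norm_nonneg _) (norm_nonneg _)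
    _ = 2 * ‖x - y‖ := by ring

include ha in
lemma g_norm {z : ℂ} (hz : z ∈ Metric.ball (0 : ℂ) (1 + 1 / (4 * 10 ^ 8))) :
    ‖g (a : ℂ) z‖ ≤ 1 := by
  unfold g
  rw [norm_div, norm_one]
  rw [div_le_one (norm_pos_iff.2 (den_ne ha hz))]
  exact le_trans (by norm_num) (den_ge ha hz)

lemma g_re {ε d : ℝ} (hε : ε * ε = 1) (hd : 2 ≤ d) {z : ℂ} (hz : z ∈ Metric.ball (0 : ℂ) 1) :
    ε * (g ((ε * d : ℝ) : ℂ) z).re ∈ Ioo (1 / (d + 1)) (1 / (d - 1)) := by
  have hz' : ‖z‖ < 1 := mem_ball_zero_iff.1 hz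
  have hε1 : |ε| = 1 := by
    have : |ε| * |ε| = 1 := by rw [← abs_mul, hε, abs_one]
    nlinarith [abs_nonneg ε]
  have hp : |ε * z.re| < 1 := by
    rw [abs_mul, hε1, one_mul]
    exact (Complex.abs_re_le_norm z).trans_lt hz'
  obtain ⟨hp1, hp2⟩ := abs_lt.1 hp
  obtain ⟨p, hpdef⟩ : ∃ p : ℝ, p = ε * z.re := ⟨_, rfl⟩
  obtain ⟨q, hqdef⟩ : ∃ q : ℝ, q = z.re ^ 2 + z.im ^ 2 := ⟨_, rfl⟩
  have hq1 : q < 1 := by
    have h1 : ‖z‖ ^ 2 = q := by rw [← Complex.normSq_eq_norm_sq, Complex.normSq_apply, hqdef]; ring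
    rw [← h1]
    nlinarith [norm_nonneg z]
  have hpq : p ^ 2 ≤ q := by
    rw [hpdef, hqdef, mul_pow, sq ε, hε]
    nlinarith [sq_nonneg z.im]
  have e : ε * (g ((ε * d : ℝ) : ℂ) z).re = (p + d) / (q + 2 * d * p + d ^ 2) := by
    unfold g
    rw [one_div, Complex.inv_re, Complex.normSq_apply, Complex.add_re, Complex.add_im,
      Complex.ofReal_re, Complex.ofReal_im, ← mul_div_assoc]
    congr 1
    · rw [hpdef]; linear_combination d * hε
    · rw [hpdef, hqdef]; linear_combination d ^ 2 * hε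
  rw [← hpdef] at hp1 hp2
  have hD : 0 < q + 2 * d * p + d ^ 2 := by nlinarith [sq_nonneg (p + d)]
  rw [e]
  constructor
  · rw [div_lt_div_iff₀ (by linarith) hD]
    nlinarith
  · rw [div_lt_div_iff₀ hD (by linarith)]
    nlinarith

end Moebius

/-! ### The two systems -/

lemma famF_eq (p : ℕ × Fin 2) : famF dd 2 p = f ((sg p.2 * dd p.1 : ℝ) : ℂ) := by
  unfold famF
  rw [par_two]

lemma famG_eq (p : ℕ × Fin 2) : famG dd 2 p = g ((sg p.2 * dd p.1 : ℝ) : ℂ) := by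
  unfold famG
  rw [par_two]

lemma ha2 (p : ℕ × Fin 2) : 2 ≤ |sg p.2 * dd p.1| := by
  rw [abs_par]
  exact dd_ge_two _

lemma ha3 (p : ℕ × Fin 2) : 2 + 1 / 10 ^ 8 ≤ |sg p.2 * dd p.1| := by
  rw [abs_par]
  exact dd_ge _

lemma isCIFS_F : IsCIFS (famF dd 2) := by
  refine isCIFS_of (κ := 1 / 3) (R := 2) (by norm_num) (by norm_num) (by norm_num)
    (fun p => ?_) (fun p => ?_) (fun p => ?_) (fun p => ?_) (fun p => ?_) (fun p => ?_)
    (fun p => ?_) (fun p => ?_) (osc_of fun p z hz => ?_)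
  · rw [famF_eq]; exact f_mapsX (ha2 p)
  · rw [famF_eq]; exact f_mapsV (ha2 p)
  · rw [famF_eq]
    intro x _ y _ hxy
    have h1 := f_sub (ha2 p) x y
    rw [hxy, sub_self, norm_zero] at h1
    have h2 := c_ge (ha2 p)
    have h3 : 0 < ((sg p.2 * dd p.1) ^ 2 - 1)⁻¹ := inv_pos.2 (by linarith)
    rcases mul_eq_zero.1 h1.symm with h4 | h4
    · exact absurd h4 h3.ne'
    · exact sub_eq_zero.1 (norm_eq_zero.1 h4)
  · rw [famF_eq]
    exact fun z _ => (f_deriv z).differentiableAt.differentiableWithinAt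
  · rw [famF_eq]
    intro x _
    rw [(f_deriv x).deriv]
    have h2 := c_ge (ha2 p)
    rw [one_div]
    exact inv_ne_zero (Complex.ofReal_ne_zero.2 (by linarith))
  · rw [famF_eq]
    intro x _ y _
    rw [f_sub (ha2 p)]
    apply mul_le_mul_of_nonneg_right _ (norm_nonneg _)
    have h2 := c_ge (ha2 p)
    rw [one_div]
    exact inv_anti₀ (by norm_num) h2
  · rw [famF_eq]
    intro x _ y _
    rw [(f_deriv x).deriv, (f_deriv y).deriv]
    exact le_mul_of_one_le_left (norm_nonneg _) (Real.one_le_exp (by positivity))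
  · rw [famF_eq]
    intro x _ y _
    rw [(f_deriv x).deriv, (f_deriv y).deriv, sub_self, norm_zero]
    positivity
  · rw [famF_eq]
    exact f_re (sg_sq _) (dd_ge_two _) hz

lemma X_sub : X ⊆ Metric.ball (0 : ℂ) (1 + 1 / (4 * 10 ^ 8)) :=
  Metric.closedBall_subset_ball (by norm_num)

lemma G_mapsX (p : ℕ × Fin 2) : MapsTo (famG dd 2 p) X X := by
  rw [famG_eq]
  exact fun z hz => mem_closedBall_zero_iff.2 (g_norm (ha3 p) (X_sub hz))

lemma G_mapsV (p : ℕ × Fin 2) : MapsTo (famG dd 2 p) (Metric.ball 0 (1 + 1 / (4 * 10 ^ 8)))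
    (Metric.ball 0 (1 + 1 / (4 * 10 ^ 8))) := by
  rw [famG_eq]
  exact fun z hz => mem_ball_zero_iff.2 ((g_norm (ha3 p) hz).trans_lt (by norm_num))

lemma G_diff (p : ℕ × Fin 2) :
    DifferentiableOn ℂ (famG dd 2 p) (Metric.ball 0 (1 + 1 / (4 * 10 ^ 8))) := by
  rw [famG_eq]
  exact fun z hz => (g_deriv (ha3 p) hz).differentiableAt.differentiableWithinAt

lemma G_ne (p : ℕ × Fin 2) :
    ∀ x ∈ Metric.ball (0 : ℂ) (1 + 1 / (4 * 10 ^ 8)), deriv (famG dd 2 p) x ≠ 0 := by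
  rw [famG_eq]
  intro x hx
  rw [(g_deriv (ha3 p) hx).deriv]
  have := den_ne (ha3 p) hx
  exact div_ne_zero (neg_ne_zero.2 one_ne_zero) (pow_ne_zero 2 this)

lemma G_lip (p : ℕ × Fin 2) : ∀ x ∈ Metric.ball (0 : ℂ) (1 + 1 / (4 * 10 ^ 8)),
    ∀ y ∈ Metric.ball (0 : ℂ) (1 + 1 / (4 * 10 ^ 8)),
      ‖famG dd 2 p x - famG dd 2 p y‖ ≤ kap * ‖x - y‖ := by
  rw [famG_eq]
  exact fun x hx y hy => g_lip (ha3 p) hx hy

lemma G_rat (p : ℕ × Fin 2) : ∀ x ∈ Metric.ball (0 : ℂ) (1 + 1 / (4 * 10 ^ 8)),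
    ∀ y ∈ Metric.ball (0 : ℂ) (1 + 1 / (4 * 10 ^ 8)),
      ‖deriv (famG dd 2 p) x‖ ≤ Real.exp (2 * ‖x - y‖) * ‖deriv (famG dd 2 p) y‖ := by
  rw [famG_eq]
  exact fun x hx y hy => g_rat (ha3 p) hx hy

lemma isCIFS_G : IsCIFS (famG dd 2) := by
  refine isCIFS_of (κ := kap) (R := 1 + 1 / (4 * 10 ^ 8)) (by norm_num) kap_pos.le kap_lt
    G_mapsX G_mapsV (fun p => ?_) G_diff G_ne G_lip G_rat (fun p => ?_)
    (osc_of fun p z hz => ?_)
  · rw [famG_eq]
    intro x hx y hy hxy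
    have h1 := g_sub (ha3 p) hx hy
    rw [hxy, sub_self] at h1
    have h2 := den_ne (ha3 p) hx
    have h3 := den_ne (ha3 p) hy
    rcases div_eq_zero_iff.1 h1.symm with h4 | h4
    · exact (sub_eq_zero.1 h4).symm
    · exact absurd h4 (mul_ne_zero h2 h3)
  · rw [famG_eq]
    exact fun x hx y hy => g_hol (ha3 p) hx hy
  · rw [famG_eq]
    exact g_re (sg_sq _) (dd_ge_two _) hz

/-- A sum over `ℕ × Fin 2`. -/
lemma tsum_pairs {c : ℕ → ℝ} {A B q : ℝ} (hA : c 0 ≤ A) (hA0 : 0 ≤ A) (hB0 : 0 ≤ B)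
    (hq0 : 0 ≤ q) (hq1 : q < 1) (hc : ∀ n, c (n + 1) ≤ B * q ^ n) :
    ∑' p : ℕ × Fin 2, ENNReal.ofReal (c p.1) ≤ ENNReal.ofReal (2 * (A + B * (1 - q)⁻¹)) := by
  have h1 : ∀ n, ∑' _ : Fin 2, ENNReal.ofReal (c n) = 2 * ENNReal.ofReal (c n) := by
    intro n
    rw [tsum_fintype, Fin.sum_univ_two, two_mul]
  have h2 : ∑' n, ENNReal.ofReal (c (n + 1)) ≤ ENNReal.ofReal (B * (1 - q)⁻¹) := by
    calc ∑' n, ENNReal.ofReal (c (n + 1)) ≤ ∑' n, ENNReal.ofReal (B * q ^ n) :=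
          ENNReal.tsum_le_tsum fun n => ENNReal.ofReal_le_ofReal (hc n)
      _ = ENNReal.ofReal (∑' n, B * q ^ n) := by
          rw [ENNReal.ofReal_tsum_of_nonneg (fun n => by positivity)
            ((summable_geometric_of_lt_one hq0 hq1).mul_left B)]
      _ = ENNReal.ofReal (B * (1 - q)⁻¹) := by
          rw [tsum_mul_left, tsum_geometric_of_lt_one hq0 hq1]
  have hq2 : 0 ≤ (1 - q)⁻¹ := inv_nonneg.2 (by linarith)
  rw [ENNReal.tsum_prod' (f := fun p : ℕ × Fin 2 => ENNReal.ofReal (c p.1))]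
  simp only [h1]
  rw [ENNReal.tsum_mul_left, tsum_eq_zero_add' ENNReal.summable,
    ENNReal.ofReal_mul (by norm_num), ENNReal.ofReal_add hA0 (by positivity), ENNReal.ofReal_ofNat]
  exact mul_le_mul_right (add_le_add (ENNReal.ofReal_le_ofReal hA) h2) _

lemma dd_sub_ge (n : ℕ) : 10 ^ (n + 1) ≤ dd (n + 1) - 1 := by
  rw [dd_succ, show (10 : ℝ) ^ 7 = 10 ^ 6 * 10 by norm_num, mul_pow]
  have h1 : (2 : ℝ) ≤ (10 ^ 6) ^ (n + 1) := by
    have h2 : (1 : ℝ) ≤ (10 ^ 6) ^ n := one_le_pow₀ (by norm_num)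
    rw [pow_succ]
    linarith
  have h2 : (1 : ℝ) ≤ 10 ^ (n + 1) := one_le_pow₀ (by norm_num)
  nlinarith

lemma isRegular_G : IsRegular (famG dd 2) := by
  have hb0 : ∀ n, 0 ≤ ((dd n - 1) ^ 2)⁻¹ := fun n => by positivity
  have hbs : ∀ n, ((dd (n + 1) - 1) ^ 2)⁻¹ ≤ (1 / 100) ^ (n + 1) := by
    intro n
    rw [one_div, inv_pow]
    apply inv_anti₀ (by positivity)
    have h1 := dd_sub_ge n
    have h2 := pow_le_pow_left₀ (by positivity) h1 2
    refine le_trans (le_of_eq ?_) h2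
    rw [← pow_mul, mul_comm, pow_mul]
    norm_num
  have hb1 : ∀ n, ((dd n - 1) ^ 2)⁻¹ ≤ 1 := by
    intro n
    apply inv_le_one_of_one_le₀
    have := dd_ge_two n
    nlinarith
  refine isRegular_of (κ := kap) (R := 1 + 1 / (4 * 10 ^ 8)) (by norm_num) kap_pos.le kap_lt
    G_mapsX G_mapsV G_diff G_ne G_lip G_rat (b := fun p => ((dd p.1 - 1) ^ 2)⁻¹)
    (fun p => hb0 _) (fun p x hx => ?_) (fun p => hb1 _) (fun t ht => ?_)
    (i := (0, 0)) (j := (0, 1)) (by simp) (t₁ := 10 ^ 8) (by norm_num) ?_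
  · rw [famG_eq, norm_deriv_g (ha3 p) (X_sub hx)]
    have h0 := dd_ge_two p.1
    apply inv_anti₀ (by nlinarith)
    apply pow_le_pow_left₀ (by linarith)
    have h1 : ‖((sg p.2 * dd p.1 : ℝ) : ℂ)‖ ≤ ‖x + ((sg p.2 * dd p.1 : ℝ) : ℂ)‖ + ‖x‖ := by
      have := norm_sub_le (x + ((sg p.2 * dd p.1 : ℝ) : ℂ)) x
      rwa [add_sub_cancel_left] at this
    rw [Complex.norm_real, Real.norm_eq_abs, abs_par] at h1
    have h2 : ‖x‖ ≤ 1 := mem_closedBall_zero_iff.1 hx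
    linarith
  · have hq1 : (1 / 100 : ℝ) ^ t < 1 := Real.rpow_lt_one (by norm_num) (by norm_num) ht
    have hq0 : (0 : ℝ) ≤ (1 / 100 : ℝ) ^ t := Real.rpow_nonneg (by norm_num) _
    have h := tsum_pairs (c := fun n => (((dd n - 1) ^ 2)⁻¹) ^ t) (A := 1)
      (B := (1 / 100 : ℝ) ^ t) (q := (1 / 100 : ℝ) ^ t) (Real.rpow_le_one (hb0 0) (hb1 0) ht.le)
      zero_le_one hq0 hq0 hq1 (fun n => by
        have h1 := Real.rpow_le_rpow (hb0 (n + 1)) (hbs n) ht.le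
        refine h1.trans (le_of_eq ?_)
        rw [← pow_succ', ← Real.rpow_natCast, ← Real.rpow_mul (by norm_num),
          mul_comm, Real.rpow_mul (by norm_num), Real.rpow_natCast])
    exact (h.trans_lt ENNReal.ofReal_lt_top).ne
  · have h := tsum_pairs (c := fun n => (((dd n - 1) ^ 2)⁻¹) ^ ((10 : ℝ) ^ 8)) (A := 1 / 3)
      (B := (1 / 100 : ℝ)) (q := (1 / 100 : ℝ)) (by
        rw [Real.inv_rpow (by positivity), one_div]
        apply inv_anti₀ (by norm_num)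
        have h1 := one_add_mul_self_le_rpow_one_add (s := (dd 0 - 1) ^ 2 - 1) (p := (10 : ℝ) ^ 8)
          (by nlinarith [sq_nonneg (dd 0 - 1)]) (by norm_num)
        rw [show 1 + ((dd 0 - 1) ^ 2 - 1) = (dd 0 - 1) ^ 2 by ring] at h1
        refine le_trans ?_ h1
        rw [dd_zero]
        norm_num) (by norm_num) (by norm_num) (by norm_num) (by norm_num) (fun n => by
        have h1 := Real.rpow_le_rpow_of_exponent_ge (x := ((dd (n + 1) - 1) ^ 2)⁻¹)
          (y := (10 : ℝ) ^ 8) (z := 1) (by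
            have := dd_ge_two (n + 1)
            exact inv_pos.2 (by nlinarith)) (hb1 (n + 1)) (by norm_num)
        rw [Real.rpow_one] at h1
        refine (h1.trans (hbs n)).trans (le_of_eq ?_)
        rw [pow_succ'])
    refine h.trans_lt ?_
    rw [← ENNReal.ofReal_one]
    exact (ENNReal.ofReal_lt_ofReal_iff one_pos).2 (by norm_num)

lemma dimH_F : dimH (limitSet (famF dd 2)) ≤ ENNReal.ofReal (19 / 30) := by
  have hX : ∀ p, MapsTo (famF dd 2 p) X X := fun p => by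
    rw [famF_eq]; exact f_mapsX (ha2 p)
  rw [limitSet_eq hX]
  have hsq : ∀ p : ℕ × Fin 2, (sg p.2 * dd p.1) ^ 2 = dd p.1 ^ 2 := fun p => by
    rw [mul_pow, sq (sg p.2), sg_sq, one_mul]
  have hge : ∀ n, 3 ≤ dd n ^ 2 - 1 := fun n => by nlinarith [dd_ge_two n]
  have hpos : ∀ n, 0 < (dd n ^ 2 - 1)⁻¹ := fun n => inv_pos.2 (by linarith [hge n])
  refine Q91.ExpSys.dimH_limitSet_le (r := fun p => (dd p.1 ^ 2 - 1)⁻¹) (κ := 1 / 3)
    (by norm_num) (fun p => (hpos _).le) (fun p => ?_) hX Metric.isBounded_closedBall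
    (fun p x hx y hy => ?_) (by norm_num) ?_
  · rw [one_div]
    exact inv_anti₀ (by norm_num) (hge _)
  · rw [dist_eq_norm, dist_eq_norm, famF_eq, f_sub (ha2 p), hsq]
  · rw [tsum_univ (f := fun p : ℕ × Fin 2 => ENNReal.ofReal (((dd p.1 ^ 2 - 1)⁻¹) ^ (19 / 30 : ℝ)))]
    have h := tsum_pairs (c := fun n => ((dd n ^ 2 - 1)⁻¹) ^ (19 / 30 : ℝ)) (A := 4988 / 10000)
      (B := 1 / 10 ^ 6) (q := 1 / 10 ^ 6) (by
        have h1 : ((dd 0 ^ 2 - 1)⁻¹) ^ (19 / 30 : ℝ) ≤ (3⁻¹ : ℝ) ^ (19 / 30 : ℝ) :=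
          Real.rpow_le_rpow (hpos 0).le (inv_anti₀ (by norm_num) (hge 0)) (by norm_num)
        refine h1.trans ?_
        refine le_of_pow_le_pow_left₀ (n := 30) (by norm_num) (by norm_num) ?_
        rw [← Real.rpow_natCast, ← Real.rpow_mul (by norm_num),
          show (19 / 30 : ℝ) * ((30 : ℕ) : ℝ) = ((19 : ℕ) : ℝ) by norm_num, Real.rpow_natCast]
        norm_num) (by norm_num) (by norm_num) (by norm_num) (by norm_num) (fun n => by
        have hle : (dd (n + 1) ^ 2 - 1)⁻¹ ≤ ((1 / 10 ^ 6) ^ (n + 1)) ^ 2 := by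
          rw [one_div, inv_pow, inv_pow]
          apply inv_anti₀ (by positivity)
          rw [dd_succ, show (10 : ℝ) ^ 7 = 10 ^ 6 * 10 by norm_num, mul_pow, mul_pow]
          have h2 : (1 : ℝ) ≤ ((10 ^ 6) ^ (n + 1)) ^ 2 :=
            one_le_pow₀ (one_le_pow₀ (by norm_num))
          have h3 : (2 : ℝ) ≤ (10 ^ (n + 1)) ^ 2 := by
            have h4 : (1 : ℝ) ≤ 10 ^ n := one_le_pow₀ (by norm_num)
            have h5 : (10 : ℝ) ^ (n + 1) = 10 ^ n * 10 := pow_succ _ _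
            rw [h5]
            nlinarith
          nlinarith
        have h1 := Real.rpow_le_rpow_of_exponent_ge (x := (dd (n + 1) ^ 2 - 1)⁻¹)
          (y := 19 / 30) (z := 1 / 2) (hpos _) (by
            have := inv_anti₀ (by norm_num) (hge (n + 1))
            norm_num at this ⊢
            linarith) (by norm_num)
        refine h1.trans ?_
        rw [← Real.sqrt_eq_rpow]
        refine (Real.sqrt_le_sqrt hle).trans (le_of_eq ?_)
        rw [Real.sqrt_sq (by positivity), pow_succ'])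
    refine h.trans ?_
    rw [← ENNReal.ofReal_one]
    exact ENNReal.ofReal_le_ofReal (by norm_num)

lemma dimH_G : ENNReal.ofReal (7 / 11) ≤ dimH (limitSet (famG dd 2)) := by
  have hd : Q91.ParaMob.d = dd 0 := rfl
  obtain ⟨J, hJ⟩ : ∃ J : Set ℝ, J = Q91.ExpSys.limitSet Q91.ParaMob.ψ (Icc (0 : ℝ) 1)
    ((Finset.range 1001 : Finset ℕ) : Set ℕ) := ⟨_, rfl⟩
  have hJ01 : ∀ x ∈ J, x ∈ Icc (0 : ℝ) 1 := fun x hx => by
    rw [hJ] at hx
    exact Q91.ExpSys.limitSet_subset hx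
  have hJpre : ∀ x ∈ J, ∃ n ≤ 1000, ∃ x' ∈ J, x = Q91.ParaMob.ψ n x' := by
    intro x hx
    rw [hJ] at hx
    have hlt : ∀ n ∈ Finset.range 1001, n ≤ 1000 := fun n hn => by
      have := Finset.mem_range.1 hn
      omega
    obtain ⟨n, hn, x', hx', h⟩ := Q91.ExpSys.exists_preimage (r := Q91.ParaMob.r)
      (fun n _ => Q91.ParaMob.r_pos n)
      (fun n hn x hx => Q91.ParaMob.ψ_mem (n := n) (by have := hlt n hn; omega) hx)
      (fun n hn x hx y hy => Q91.ParaMob.ψ_lower (n := n) (by have := hlt n hn; omega) hx hy) hx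
    rw [← hJ] at hx'
    exact ⟨n, hlt n hn, x', hx', h⟩
  rw [limitSet_eq G_mapsX]
  have h1 : ENNReal.ofReal (7 / 11) ≤ dimH J := by
    rw [hJ]
    exact Q91.ParaMob.le_dimH
  have h2 : dimH ((fun x : ℝ => (x : ℂ)) '' J) = dimH J := Complex.isometry_ofReal.dimH_image J
  rw [← h2] at h1
  refine h1.trans (dimH_mono ?_)
  obtain ⟨Y, hY⟩ : ∃ Y : Set ℂ, Y = {z | ∃ j : Fin 2, ∃ n ≤ 1000, ∃ x ∈ J,
    z = ((sg j * Q91.ParaMob.ψ n x : ℝ) : ℂ)} := ⟨_, rfl⟩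
  have hYsub : Y ⊆ Q91.ExpSys.limitSet (famG dd 2) X univ := by
    refine Q91.ExpSys.subset_limitSet ?_ ?_
    · rw [hY]
      rintro z ⟨j, n, hn, x, hx, rfl⟩
      have h3 := Q91.ParaMob.ψ_mem (n := n) (by omega) (hJ01 x hx)
      refine mem_closedBall_zero_iff.2 ?_
      rw [Complex.norm_real, Real.norm_eq_abs, abs_mul, abs_sg, one_mul, abs_of_nonneg h3.1]
      exact h3.2
    · rw [hY]
      rintro z ⟨j, n, hn, x, hx, rfl⟩
      rcases Nat.eq_zero_or_pos n with rfl | hn0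
      · obtain ⟨m, hm, x', hx', hxx⟩ := hJpre x hx
        refine ⟨(0, j), mem_univ _, ((sg j * x : ℝ) : ℂ), ⟨j, m, hm, x', hx', by rw [← hxx]⟩, ?_⟩
        rw [famG_eq, Q91.ParaMob.ψ_zero, hd]
        unfold g
        have h3 : (dd 0 + x) ≠ 0 := by have := dd_ge_two 0; have := (hJ01 x hx).1; positivity
        have h4 : ((sg j * x : ℝ) : ℂ) + ((sg j * dd 0 : ℝ) : ℂ) = ((sg j * (dd 0 + x) : ℝ) : ℂ) := by
          push_cast; ring
        rw [h4, ← Complex.ofReal_one, ← Complex.ofReal_div]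
        congr 1
        rcases sg_cases j with h5 | h5 <;> rw [h5] <;> field_simp
      · obtain ⟨m, rfl⟩ : ∃ m, n = m + 1 := ⟨n - 1, by omega⟩
        obtain ⟨j', hj'⟩ : ∃ j' : Fin 2, sg j' = -sg j := by
          rcases sg_cases j with h5 | h5
          · exact ⟨1, by rw [h5]; simp [sg]⟩
          · exact ⟨0, by rw [h5]; simp [sg]⟩
        refine ⟨(0, j), mem_univ _, ((sg j' * Q91.ParaMob.ψ m x : ℝ) : ℂ),
          ⟨j', m, by omega, x, hx, rfl⟩, ?_⟩
        rw [famG_eq, Q91.ParaMob.ψ_succ (by omega) (hJ01 x hx), hd, hj']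
        unfold g
        have h0 := Q91.ParaMob.ψ_mem (n := m) (by omega) (hJ01 x hx)
        have h3 : (dd 0 - Q91.ParaMob.ψ m x) ≠ 0 := by
          have := dd_ge_two 0; have := h0.2; linarith
        have h4 : ((-sg j * Q91.ParaMob.ψ m x : ℝ) : ℂ) + ((sg j * dd 0 : ℝ) : ℂ)
            = ((sg j * (dd 0 - Q91.ParaMob.ψ m x) : ℝ) : ℂ) := by
          push_cast; ring
        rw [h4, ← Complex.ofReal_one, ← Complex.ofReal_div]
        congr 1
        rcases sg_cases j with h5 | h5 <;> rw [h5] <;> field_simp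
  refine subset_trans ?_ hYsub
  rw [hY]
  rintro _ ⟨x, hx, rfl⟩
  obtain ⟨n, hn, x', hx', hxx⟩ := hJpre x hx
  refine ⟨0, n, hn, x', hx', ?_⟩
  rw [← hxx]
  simp [sg]

/-- **Disproof**: for `T = 2` and the explicit sequence `2 + 10^{-8}, 10^7, 10^{14}, ...` both
systems are CIFSs, the Möbius system is regular, and its dimension is strictly larger than the
dimension of the linear system.  In particular the comparison `h_F > h_G` of Q1 fails. -/
theorem result :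
    (InD dd ∧ IsCIFS (famF dd 2) ∧ IsCIFS (famG dd 2) ∧ IsRegular (famG dd 2) ∧
      dimH (limitSet (famF dd 2)) ≤ ENNReal.ofReal (19 / 30) ∧
      ENNReal.ofReal (7 / 11) ≤ dimH (limitSet (famG dd 2)) ∧
      dimH (limitSet (famF dd 2)) < dimH (limitSet (famG dd 2))) ∧
    ¬ ∀ (d : ℕ → ℝ) (T : ℕ), 1 ≤ T → InD d → IsCIFS (famF d T) → IsCIFS (famG d T) →
      IsRegular (famG d T) → dimH (limitSet (famG d T)) < dimH (limitSet (famF d T)) := by
  have hlt : dimH (limitSet (famF dd 2)) < dimH (limitSet (famG dd 2)) := by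
    refine dimH_F.trans_lt (lt_of_lt_of_le ?_ dimH_G)
    exact (ENNReal.ofReal_lt_ofReal_iff (by norm_num)).2 (by norm_num)
  refine ⟨⟨inD_dd, isCIFS_F, isCIFS_G, isRegular_G, dimH_F, dimH_G, hlt⟩, fun h => ?_⟩
  exact absurd (h dd 2 (by norm_num) inD_dd isCIFS_F isCIFS_G isRegular_G) hlt.not_gt

end Pool.Agent.Results.MP_c785a0_an.DiscComparison
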